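import Pool.Agent.Helper61.PV.St

set_option autoImplicit false

namespace Pool.Agent.Helper2.PV

open Pool.Agent.Helper61.PV Finset

theorem hNum : StNum := by
  intro W C κ δ hW hC hκ hκ1 hδ hδ1
  set C₁ : ℝ := max (2 * C) 1 with hC₁
  have hC₁1 : 1 ≤ C₁ := le_max_right _ _
  have hC₁C : 2 * C ≤ C₁ := le_max_left _ _
  have hWr : (1:ℝ) ≤ W := by exact_mod_cast hW
  set a₁ : ℝ := 8 * C₁ ^ 2 * W / (δ * κ) with ha₁
  set a₂ : ℝ := 256 * W * C₁ / (δ ^ 2 * κ) with ha₂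
  set a₃ : ℝ := W * C₁ with ha₃
  have ha₁0 : 0 ≤ a₁ := by positivity
  have ha₂0 : 0 ≤ a₂ := by positivity
  have ha₃0 : 0 ≤ a₃ := by positivity
  refine ⟨max 8 ⌈Real.exp (1 + a₁ + a₂ + a₃)⌉₊, ?_⟩
  intro H hH d hd hdH
  have hH8 : 8 ≤ H := le_trans (le_max_left _ _) hH
  have hHe : Real.exp (1 + a₁ + a₂ + a₃) ≤ H := by
    have h1 : ⌈Real.exp (1 + a₁ + a₂ + a₃)⌉₊ ≤ H := le_trans (le_max_right _ _) hH
    exact le_trans (Nat.le_ceil _) (by exact_mod_cast h1)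
  have hHr : (8:ℝ) ≤ H := by exact_mod_cast hH8
  have hH0 : (0:ℝ) < H := by linarith
  set L := Real.log H with hL
  have hLL : 1 + a₁ + a₂ + a₃ ≤ L := (Real.le_log_iff_exp_le hH0).2 hHe
  have hL1 : 1 ≤ L := by linarith
  have hdr : (1:ℝ) ≤ d := by exact_mod_cast hd
  set T : ℝ := (H:ℝ) ^ (1 / 3 : ℝ) with hT
  have hT0 : 0 < T := Real.rpow_pos_of_pos hH0 _
  have hT3 : T ^ 3 = H := by
    rw [hT, ← Real.rpow_natCast, ← Real.rpow_mul hH0.le]
    norm_num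
  have hT2 : 2 ≤ T := by
    by_contra hc
    push Not at hc
    have : T ^ 3 < 2 ^ 3 := pow_lt_pow_left₀ hc hT0.le (by norm_num)
    rw [hT3] at this
    linarith
  have hdL : d * L ≤ T := hdH
  have hL0 : 0 ≤ L := by linarith
  have hd0 : (0:ℝ) ≤ d := by linarith
  have hdT : (d:ℝ) ≤ T := (le_mul_of_one_le_right hd0 hL1).trans hdL
  have hLd : L ≤ d * L := le_mul_of_one_le_left hL0 hdr
  have hLT : L ≤ T := hLd.trans hdL
  have hdLH : d + L ≤ H := by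
    have h4 : 2 * 2 ≤ T * T := mul_le_mul hT2 hT2 (by norm_num) hT0.le
    have h5 : 2 * T ≤ (T * T) * T := mul_le_mul_of_nonneg_right (by linarith) hT0.le
    have h6 : (T * T) * T = T ^ 3 := by ring
    rw [← hT3, ← h6]
    linarith
  have hdL0 : 0 < (d:ℝ) + L := by linarith
  have hlog : Real.log (d + L) ≤ L := Real.log_le_log hdL0 hdLH
  have hS : Sz H d ≤ 2 * (d * L) := by
    unfold Sz
    rw [← hL]
    have h4 : (d:ℝ) * Real.log (d + L) ≤ d * L := mul_le_mul_of_nonneg_left hlog hd0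
    linarith
  set Λ := L + d with hΛ
  have hdLpos : 1 ≤ d * L := one_le_mul_of_one_le_of_one_le hdr hL1
  set M : ℕ := max 1 ⌊C * Sz H d⌋₊ with hM
  have hM1 : 1 ≤ M := le_max_left _ _
  have hM1r : (1:ℝ) ≤ M := by exact_mod_cast hM1
  have hMle : (M:ℝ) ≤ C₁ * (d * L) := by
    rw [hM, Nat.cast_max]
    have h1 : 1 ≤ C₁ * (d * L) := one_le_mul_of_one_le_of_one_le hC₁1 hdLpos
    apply max_le
    · push_cast
      exact h1
    · by_cases h0 : 0 ≤ C * Sz H d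
      · refine (Nat.floor_le h0).trans ?_
        have h2 : C * Sz H d ≤ C * (2 * (d * L)) := mul_le_mul_of_nonneg_left hS hC.le
        have h3 : (2 * C) * (d * L) ≤ C₁ * (d * L) := mul_le_mul_of_nonneg_right hC₁C (by linarith)
        linarith
      · have : ⌊C * Sz H d⌋₊ = 0 := Nat.floor_of_nonpos (by linarith)
        rw [this]
        push_cast
        linarith
  have hMΛ : (M:ℝ) ≤ C₁ * Λ ^ 2 := by
    refine hMle.trans ?_
    apply mul_le_mul_of_nonneg_left _ (by linarith)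
    have h1 : Λ ^ 2 = L ^ 2 + 2 * (d * L) + d ^ 2 := by
      rw [hΛ]
      ring
    have h2 : 0 ≤ L ^ 2 := sq_nonneg _
    have h3 : 0 ≤ (d:ℝ) ^ 2 := sq_nonneg _
    linarith
  have hd1Λ : (d:ℝ) + 1 ≤ Λ := by
    rw [hΛ]
    linarith
  have hΛ0 : 0 < Λ := by linarith
  have hΛL : L ≤ Λ := by
    rw [hΛ]
    linarith
  have hWpos : (0:ℝ) < W := by linarith
  set h₀ : ℝ := κ * H / W with hh₀
  have hh₀0 : 0 < h₀ := by positivity
  -- the main inequality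
  have hmain : 4 * (M:ℝ) ^ 2 * (d + 1) ≤ δ * h₀ := by
    have e1 : (M:ℝ) ^ 2 ≤ C₁ ^ 2 * (d * L) ^ 2 := by
      rw [← mul_pow]
      exact pow_le_pow_left₀ (by positivity) hMle 2
    have e2 : (d:ℝ) + 1 ≤ 2 * d := by linarith
    have e3 : L * (4 * (M:ℝ) ^ 2 * (d + 1)) ≤ 8 * C₁ ^ 2 * H := by
      have : L * (4 * (M:ℝ) ^ 2 * (d + 1)) ≤ L * (4 * (C₁ ^ 2 * (d * L) ^ 2) * (2 * d)) := by
        apply mul_le_mul_of_nonneg_left _ (by linarith)
        apply mul_le_mul _ e2 (by positivity) (by positivity)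
        linarith
      refine this.trans ?_
      have e4 : L * (4 * (C₁ ^ 2 * (d * L) ^ 2) * (2 * d)) = 8 * C₁ ^ 2 * (d * L) ^ 3 := by ring
      rw [e4, ← hT3]
      apply mul_le_mul_of_nonneg_left _ (by positivity)
      exact pow_le_pow_left₀ (by linarith) hdL 3
    have e5 : 8 * C₁ ^ 2 * H ≤ L * (δ * h₀) := by
      have h1 : a₁ ≤ L := by linarith
      have h2 : a₁ * (δ * h₀) ≤ L * (δ * h₀) := mul_le_mul_of_nonneg_right h1 (by positivity)
      have h3 : a₁ * (δ * h₀) = 8 * C₁ ^ 2 * H := by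
        rw [ha₁, hh₀]
        field_simp
      linarith
    have e6 : L * (4 * (M:ℝ) ^ 2 * (d + 1)) ≤ L * (δ * h₀) := e3.trans e5
    exact le_of_mul_le_mul_left e6 (by linarith)
  set y : ℝ := δ * h₀ / (4 * M * (d + 1)) with hy
  have hden : 0 < 4 * (M:ℝ) * (d + 1) := by positivity
  have hyM : (M:ℝ) ≤ y := by
    rw [hy, le_div_iff₀ hden]
    have h1 : (M:ℝ) * (4 * M * (d + 1)) = 4 * (M:ℝ) ^ 2 * (d + 1) := by ring
    rw [h1]
    exact hmain
  have hy0 : 0 ≤ y := by linarith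
  set B : ℕ := ⌊y⌋₊ with hB
  have hBM : M ≤ B := Nat.le_floor hyM
  have hBy : (B:ℝ) ≤ y := Nat.floor_le hy0
  have hB1 : (1:ℝ) ≤ B := by
    have : 1 ≤ B := le_trans hM1 hBM
    exact_mod_cast this
  have hBy2 : y ≤ 2 * B := by
    have := Nat.lt_floor_add_one y
    rw [← hB] at this
    linarith
  have hB4 : (B:ℝ) * (4 * M * (d + 1)) ≤ δ * h₀ := by
    rwa [hy, le_div_iff₀ hden] at hBy
  have hB8 : δ * h₀ ≤ 2 * B * (4 * M * (d + 1)) := by
    rwa [hy, div_le_iff₀ hden] at hBy2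
  refine ⟨B, fun m hm hmC => ?_⟩
  have hmM : m ≤ M := le_trans (Nat.le_floor hmC) (le_max_right _ _)
  have hmMr : (m:ℝ) ≤ M := by exact_mod_cast hmM
  have hm0 : (0:ℝ) ≤ m := Nat.cast_nonneg m
  have hWm : (W:ℝ) * m ≤ Λ ^ 3 := by
    have h1 : a₃ ≤ Λ := by linarith
    calc (W:ℝ) * m ≤ W * (C₁ * Λ ^ 2) := mul_le_mul_of_nonneg_left (hmMr.trans hMΛ) hWpos.le
      _ = a₃ * Λ ^ 2 := by
        rw [ha₃]
        ring
      _ ≤ Λ * Λ ^ 2 := mul_le_mul_of_nonneg_right h1 (by positivity)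
      _ = Λ ^ 3 := by ring
  refine ⟨le_trans hmM hBM, ?_, ?_, hWm, ?_⟩
  · have h1 : (m:ℝ) * B * (d + 1) ≤ M * B * (d + 1) := by
      apply mul_le_mul_of_nonneg_right _ (by positivity)
      exact mul_le_mul_of_nonneg_right hmMr (by positivity)
    have h2 : 4 * (2 * (m:ℝ) * B) * (d + 1) = 8 * (m * B * (d + 1)) := by ring
    have h3 : (B:ℝ) * (4 * M * (d + 1)) = 4 * (M * B * (d + 1)) := by ring
    rw [h3] at hB4
    rw [h2]
    linarith
  · -- `32 H ≤ B δ Λ ^ 4`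
    have h1 : (M:ℝ) * (d + 1) ≤ C₁ * Λ ^ 3 := by
      calc (M:ℝ) * (d + 1) ≤ (C₁ * Λ ^ 2) * Λ := mul_le_mul hMΛ hd1Λ (by positivity) (by positivity)
        _ = C₁ * Λ ^ 3 := by ring
    have h2 : δ * h₀ ≤ 8 * B * (C₁ * Λ ^ 3) := by
      have : 8 * (B:ℝ) * (M * (d + 1)) ≤ 8 * B * (C₁ * Λ ^ 3) :=
        mul_le_mul_of_nonneg_left h1 (by positivity)
      have h3 : 2 * (B:ℝ) * (4 * M * (d + 1)) = 8 * (B:ℝ) * (M * (d + 1)) := by ring
      rw [h3] at hB8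
      exact hB8.trans this
    have h3 : a₂ ≤ Λ := by linarith
    have h4 : δ * κ * H ≤ 8 * B * (C₁ * Λ ^ 3) * W := by
      have : δ * h₀ * W = δ * κ * H := by
        rw [hh₀]
        field_simp
      rw [← this]
      exact mul_le_mul_of_nonneg_right h2 hWpos.le
    have h5 : a₂ * (δ ^ 2 * κ) = 256 * W * C₁ := by
      rw [ha₂]
      field_simp
    have h6 : 256 * W * C₁ ≤ Λ * (δ ^ 2 * κ) := by
      rw [← h5]
      exact mul_le_mul_of_nonneg_right h3 (by positivity)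
    -- multiply `h4` by `δ Λ`
    have h7 : 256 * W * C₁ * H ≤ (8 * B * (C₁ * Λ ^ 3) * W) * (δ * Λ) := by
      calc 256 * W * C₁ * H ≤ Λ * (δ ^ 2 * κ) * H := mul_le_mul_of_nonneg_right h6 hH0.le
        _ = (δ * κ * H) * (δ * Λ) := by ring
        _ ≤ _ := mul_le_mul_of_nonneg_right h4 (by positivity)
    have h8 : (8 * B * (C₁ * Λ ^ 3) * W) * (δ * Λ) = (8 * W * C₁) * (B * (δ * Λ ^ 4)) := by ring
    have h9 : 256 * W * C₁ * H = (8 * W * C₁) * (32 * H) := by ring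
    rw [h8, h9] at h7
    exact le_of_mul_le_mul_left h7 (by positivity)
  · exact le_trans (le_mul_of_one_le_left hm0 hWr) hWm

end Pool.Agent.Helper2.PV
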