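import Pool.Agent.Helper61.PV.St

set_option autoImplicit false

namespace Pool.Agent.Helper2.PV

open Pool.Agent.Helper61.PV Finset

theorem hSz2 (hSiz : StSiz) : StSz2 := by
  intro W H d m m' B κ δ F A h hW hH hκ hκ1 hδ hδ2 hcond hm' hmm hbound a ha
  obtain ⟨_, _, hc3, hc4⟩ := hcond
  have hWr : (1:ℝ) ≤ W := by exact_mod_cast hW
  have hW0 : (0:ℝ) < W := by linarith
  have hHr : (1:ℝ) ≤ H := by exact_mod_cast hH
  have hH0 : (0:ℝ) < H := by linarith
  have hκH : 0 < κ * H := by positivity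
  have h8 : 0 < 8 / κ := by positivity
  have hm'1 : (1:ℝ) < m' := by linarith
  have hm'n : 1 < m' := by exact_mod_cast hm'1
  have hm1 : (1:ℝ) ≤ m := by
    have : 1 ≤ m := by omega
    exact_mod_cast this
  have hd0 : (0:ℝ) ≤ d := Nat.cast_nonneg d
  have hB0 : (0:ℝ) ≤ B := Nat.cast_nonneg B
  -- `W R ≤ κ H / 2`
  set R : ℕ := 2 * (2 * m * B) with hR
  have hRr : (R:ℝ) = 2 * (2 * m * B) := by
    rw [hR]
    push_cast
    ring
  have hWR : (W:ℝ) * R ≤ κ * H / 2 := by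
    have h1 : 4 * (2 * (m : ℝ) * B) * (d + 1) * W ≤ 2 * δ * (κ * H) := by
      have := mul_le_mul_of_nonneg_right hbound hW0.le
      have e : 2 * δ * (κ * H / W) * W = 2 * δ * (κ * H) := by field_simp
      rw [e] at this
      exact this
    have h2 : 0 ≤ 4 * (2 * (m : ℝ) * B) * d * W := by positivity
    have h3 : 4 * (2 * (m : ℝ) * B) * (d + 1) * W =
        4 * (2 * (m : ℝ) * B) * d * W + 2 * (W * (2 * (2 * m * B))) := by ring
    have h4 : 2 * δ * (κ * H) ≤ 1 * (κ * H) := by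
      apply mul_le_mul_of_nonneg_right _ hκH.le
      linarith
    rw [hRr]
    linarith
  have hκH1 : κ * H ≤ H := by
    have : κ * H ≤ 1 * H := mul_le_mul_of_nonneg_right hκ1.le hH0.le
    linarith
  -- the coefficients
  have hco : ∀ i, |((lin (W:ℤ) F a i : ℤ) : ℝ)| ≤ 2 * (H:ℝ) := by
    intro i
    obtain ⟨h1, h2⟩ := ha i
    obtain ⟨h3, h4⟩ := hc3 i
    have h1r : (A i : ℝ) - R ≤ a i := by exact_mod_cast h1
    have h2r : (a i : ℝ) + 1 ≤ A i + h i + R := by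
      have : a i + 1 ≤ A i + h i + (R : ℕ) := by omega
      exact_mod_cast this
    have h3r : -(H:ℝ) ≤ F i + W * A i := by exact_mod_cast h3
    have h4r : (F i : ℝ) + W * (A i + h i - 1) ≤ H := by exact_mod_cast h4
    have h5 : (W:ℝ) * (A i - R) ≤ W * a i := mul_le_mul_of_nonneg_left h1r hW0.le
    have h6 : (W:ℝ) * (a i + 1) ≤ W * (A i + h i + R) := mul_le_mul_of_nonneg_left h2r hW0.le
    unfold lin
    push_cast
    rw [abs_le]
    constructor
    · linarith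
    · linarith
  have hla : (κ / 2) * (H:ℝ) ≤ ((lin (W:ℤ) F a (Fin.last d) : ℤ) : ℝ) := by
    obtain ⟨h1, _⟩ := ha (Fin.last d)
    have h1r : (A (Fin.last d) : ℝ) - R ≤ a (Fin.last d) := by exact_mod_cast h1
    have h5 : (W:ℝ) * (A (Fin.last d) - R) ≤ W * a (Fin.last d) :=
      mul_le_mul_of_nonneg_left h1r hW0.le
    unfold lin
    push_cast at hc4 ⊢
    linarith
  have h48 : 1 + 4 / (κ / 2) ≤ (m':ℝ) := by
    have : 4 / (κ / 2) = 8 / κ := by
      field_simp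
      norm_num
    rw [this]
    exact hm'
  obtain ⟨s1, s2⟩ := hSiz d m' (lin (W:ℤ) F a) (H:ℝ) (κ / 2) (by linarith) (by linarith) hH0.le
    hco hla h48
  have hmp : (1:ℝ) ≤ (m':ℝ) ^ d := one_le_pow₀ hm'1.le
  constructor
  · have h1 : (0:ℝ) < ((ev (lin (W:ℤ) F a) (m':ℤ) : ℤ) : ℝ) := by
      refine lt_of_lt_of_le ?_ s1
      positivity
    have h2 : 0 < ev (lin (W:ℤ) F a) (m':ℤ) := by exact_mod_cast h1
    omega
  · have hWB : (W:ℝ) * B ≤ H := by
      have h1 : (W:ℝ) * B ≤ W * R := by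
        apply mul_le_mul_of_nonneg_left _ hW0.le
        rw [hRr]
        have : (1:ℝ) * B ≤ m * B := mul_le_mul_of_nonneg_right hm1 hB0
        linarith
      linarith
    have h3 : ((ev (lin (W:ℤ) F a) (m':ℤ) : ℤ) : ℝ) + W * ((m':ℝ) ^ d * B) ≤
        16 * H * (m':ℝ) ^ d + 1 := by
      have h4 : (W:ℝ) * ((m':ℝ) ^ d * B) = (W * B) * (m':ℝ) ^ d := by ring
      have h5 : (W * B) * (m':ℝ) ^ d ≤ H * (m':ℝ) ^ d :=
        mul_le_mul_of_nonneg_right hWB (by linarith)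
      have h6 : 0 ≤ (H:ℝ) * (m':ℝ) ^ d := by positivity
      rw [h4]
      linarith
    have h7 : (((ev (lin (W:ℤ) F a) (m':ℤ)) + (W:ℤ) * ((m' ^ d * B : ℕ) : ℤ) : ℤ) : ℝ) ≤
        ((((16 * H * m' ^ d : ℕ) : ℤ) + 1 : ℤ) : ℝ) := by
      push_cast
      exact h3
    exact_mod_cast h7

end Pool.Agent.Helper2.PV
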